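import Pool.Agent.H61.KV.TG

/-!
# Kuiper board KV: [EXP] functionals which vanish at a point of a face
-/

set_option autoImplicit false

open Set

namespace Pool.Agent.H20.KV.EXP

open Pool.Agent.H61.KV

theorem pf_EXP : T_EXP := by
  intro V _ _ C p ξ hξ hp
  have h1 : Sp C p ≤ LinearMap.ker ξ := by
    refine Submodule.span_le.2 ?_
    rintro q ⟨hq, c, _, hq2⟩
    rw [SetLike.mem_coe, LinearMap.mem_ker]
    have h2 := hξ q hq
    have h3 := hξ _ hq2
    rw [map_sub, map_smul, hp, smul_zero] at h3
    linarith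
  intro v hv
  exact LinearMap.mem_ker.1 (h1 hv)

end Pool.Agent.H20.KV.EXP
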