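import Pool.Agent.H61.KV.TG

/-!
# Kuiper board KV: [FCB] basic facts on faces
-/

set_option autoImplicit false

open Set

namespace Pool.Agent.H20.KV.FCB

open Pool.Agent.H61.KV

variable {V : Type} [NormedAddCommGroup V] [NormedSpace ℝ V] {C : Set V} {p : V}

theorem fc_self (hC : IsCC C) (hp : p ∈ C) : p ∈ Fc C p :=
  ⟨hp, 1, zero_le_one, by rw [one_smul, sub_self]; exact hC.zero⟩

theorem fc_zero (hC : IsCC C) : (0 : V) ∈ Fc C p :=
  ⟨hC.zero, 0, le_rfl, by rw [zero_smul, sub_self]; exact hC.zero⟩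

theorem fc_add (hC : IsCC C) {q r : V} (hq : q ∈ Fc C p) (hr : r ∈ Fc C p) : q + r ∈ Fc C p := by
  obtain ⟨hq1, c, hc, hq2⟩ := hq
  obtain ⟨hr1, c', hc', hr2⟩ := hr
  refine ⟨hC.add _ hq1 _ hr1, c + c', add_nonneg hc hc', ?_⟩
  have h : (c + c') • p - (q + r) = (c • p - q) + (c' • p - r) := by
    rw [add_smul]
    abel
  rw [h]
  exact hC.add _ hq2 _ hr2

theorem fc_smul (hC : IsCC C) {a : ℝ} (ha : 0 ≤ a) {q : V} (hq : q ∈ Fc C p) :
    a • q ∈ Fc C p := by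
  obtain ⟨hq1, c, hc, hq2⟩ := hq
  refine ⟨hC.smul a ha q hq1, a * c, mul_nonneg ha hc, ?_⟩
  have h : (a * c) • p - a • q = a • (c • p - q) := by
    rw [smul_sub, smul_smul]
  rw [h]
  exact hC.smul a ha _ hq2

theorem fc_left (hC : IsCC C) {q r : V} (hq : q ∈ C) (hr : r ∈ C) (h : q + r ∈ Fc C p) :
    q ∈ Fc C p := by
  obtain ⟨_, c, hc, h2⟩ := h
  refine ⟨hq, c, hc, ?_⟩
  have h3 : c • p - q = (c • p - (q + r)) + r := by abel
  rw [h3]
  exact hC.add _ h2 _ hr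

theorem fc_trans (hC : IsCC C) {q : V} (hq : q ∈ Fc C p) : Fc C q ⊆ Fc C p := by
  obtain ⟨_, c, hc, hq2⟩ := hq
  rintro s ⟨hs1, c', hc', hs2⟩
  refine ⟨hs1, c' * c, mul_nonneg hc' hc, ?_⟩
  have h : (c' * c) • p - s = c' • (c • p - q) + (c' • q - s) := by
    rw [smul_sub, smul_smul]
    abel
  rw [h]
  exact hC.add _ (hC.smul c' hc' _ hq2) _ hs2

theorem sp_diff (hC : IsCC C) {v : V} (hv : v ∈ Sp C p) :
    ∃ a ∈ Fc C p, ∃ b ∈ Fc C p, v = a - b := by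
  refine Submodule.span_induction (p := fun v _ => ∃ a ∈ Fc C p, ∃ b ∈ Fc C p, v = a - b)
    ?_ ?_ ?_ ?_ hv
  · intro x hx
    exact ⟨x, hx, 0, fc_zero hC, (sub_zero x).symm⟩
  · exact ⟨0, fc_zero hC, 0, fc_zero hC, (sub_zero 0).symm⟩
  · rintro x y _ _ ⟨a, ha, b, hb, rfl⟩ ⟨a', ha', b', hb', rfl⟩
    exact ⟨a + a', fc_add hC ha ha', b + b', fc_add hC hb hb', by abel⟩
  · rintro t x _ ⟨a, ha, b, hb, rfl⟩
    rcases le_total 0 t with ht | ht
    · exact ⟨t • a, fc_smul hC ht ha, t • b, fc_smul hC ht hb, smul_sub _ _ _⟩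
    · refine ⟨(-t) • b, fc_smul hC (neg_nonneg.2 ht) hb, (-t) • a,
        fc_smul hC (neg_nonneg.2 ht) ha, ?_⟩
      rw [smul_sub, neg_smul, neg_smul]
      abel

theorem fc_of_sp (hC : IsCC C) {q : V} (hq : q ∈ C) (h : q ∈ Sp C p) : q ∈ Fc C p := by
  obtain ⟨a, ha, b, hb, rfl⟩ := sp_diff hC h
  exact fc_left hC hq hb.1 (by rw [sub_add_cancel]; exact ha)

theorem fc_eq (hC : IsCC C) : Fc C p = C ∩ (Sp C p : Set V) := by
  ext q
  exact ⟨fun h => ⟨h.1, Submodule.subset_span h⟩, fun h => fc_of_sp hC h.1 h.2⟩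

theorem pf_FCB : T_FCB := by
  intro V _ _ _ C p hC hp
  refine ⟨fc_self hC hp, ⟨fc_zero hC, fun q hq r hr => fc_add hC hq hr,
    fun c hc q hq => fc_smul hC hc hq, ?_, ?_⟩, ?_, fun q hq => fc_trans hC hq,
    fun q hq h => fc_of_sp hC hq h, ?_, fun q hq h => (fc_trans hC hq).antisymm (fc_trans hC h)⟩
  · rw [fc_eq hC]
    exact hC.closed.inter (Submodule.closed_of_finiteDimensional _)
  · obtain ⟨e, he⟩ := hC.pos
    exact ⟨e, fun q hq => he q hq.1⟩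
  · intro q hq r hr h
    exact ⟨fc_left hC hq hr h, fc_left hC hr hq (by rw [add_comm]; exact h)⟩
  · intro v hv
    obtain ⟨a, ha, b, hb, rfl⟩ := sp_diff hC hv
    obtain ⟨hb1, c, hc, hb2⟩ := hb
    have hc1 : (0 : ℝ) < c + 1 := by linarith
    refine ⟨1 / (c + 1), by positivity, fun δ hδ0 hδ => ?_⟩
    have hδc : δ * c ≤ 1 := by
      rw [le_div_iff₀ hc1] at hδ
      nlinarith
    apply fc_of_sp hC
    · have h : p + δ • (a - b) = ((1 - δ * c) • p + δ • (c • p - b)) + δ • a := by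
        rw [smul_sub, smul_sub, sub_smul, one_smul, smul_smul]
        abel
      rw [h]
      exact hC.add _ (hC.add _ (hC.smul _ (by linarith) _ hp) _ (hC.smul δ hδ0 _ hb2)) _
        (hC.smul δ hδ0 _ ha.1)
    · exact Submodule.add_mem _ (Submodule.subset_span (fc_self hC hp))
        (Submodule.smul_mem _ _ hv)

end Pool.Agent.H20.KV.FCB
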