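import Pool.Agent.H61.KV.TG

/-!
# Kuiper board KV: [RNK] ranks of faces
-/

set_option autoImplicit false

open Set

namespace Pool.Agent.H20.KV.RNK

open Pool.Agent.H61.KV

theorem pf_RNK (h : T_FCB) : T_RNK := by
  intro V _ _ _ C p q hC hp hq
  obtain ⟨h1, _, _, h4, _, _, _⟩ := h V C p hC hp
  obtain ⟨_, _, _, _, k5, _, _⟩ := h V C q hC hq.1
  have hle : Sp C q ≤ Sp C p := Submodule.span_mono (h4 q hq)
  refine ⟨hle, ?_⟩
  by_cases hr : Module.finrank ℝ (Sp C q) < Module.finrank ℝ (Sp C p)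
  · exact Or.inr hr
  · left
    have he : Sp C q = Sp C p := Submodule.eq_of_le_of_finrank_le hle (not_lt.1 hr)
    apply k5 p hp
    rw [he]
    exact Submodule.subset_span h1

end Pool.Agent.H20.KV.RNK
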